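import Mathlib

namespace Pool.Agent.Results.MP_d721eb_al.Unstable

open Matrix

/-- Largest modulus of a complex eigenvalue of a real matrix. -/
noncomputable def rho {n : ℕ} (M : Matrix (Fin n) (Fin n) ℝ) : ℝ :=
  sSup ((fun μ : ℂ => ‖μ‖) '' spectrum ℂ (M.map (fun x : ℝ => (x : ℂ))))

/-- Primitive stochastic matrix. -/
def PrimStoch {n : ℕ} (W : Matrix (Fin n) (Fin n) ℝ) : Prop :=
  (∀ i j, 0 ≤ W i j) ∧ W *ᵥ (fun _ => 1) = (fun _ => 1) ∧
    ∃ m : ℕ, 1 ≤ m ∧ ∀ i j, 0 < (W ^ m) i j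

theorem spec2 (a b c d : ℝ) (μ : ℂ) :
    μ ∈ spectrum ℂ ((!![a, b; c, d] : Matrix (Fin 2) (Fin 2) ℝ).map (fun x : ℝ => (x : ℂ))) ↔
      (μ - a) * (μ - d) - b * c = 0 := by
  rw [spectrum.mem_iff, Matrix.isUnit_iff_isUnit_det, isUnit_iff_ne_zero, not_not,
    Matrix.det_fin_two]
  simp [Algebra.algebraMap_eq_smul_one]

theorem result : ¬ ∀ (n : ℕ) (W B : Matrix (Fin n) (Fin n) ℝ) (π : Fin n → ℝ), 1 ≤ n →
    PrimStoch W → (∀ i, 0 < π i) → π ᵥ* W = π → π ⬝ᵥ (fun _ => 1) = 1 →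
    B.PosSemidef → (∀ i, (B *ᵥ (fun _ => 1)) i ≤ rho B) → 0 < π ⬝ᵥ (B *ᵥ (fun _ => 1)) →
    ∀ t : ℝ, 0 < t → t < 2 / rho B →
      rho (W * (1 - t • B)) < 1 ∧ rho (1 - W + (1 + t • B)⁻¹ * ((2 : ℝ) • W - 1)) < 1 := by
  intro h
  have hB : rho !![10, -12; -12, 17] = 26 := by
    have : spectrum ℂ ((!![10, -12; -12, 17] : Matrix (Fin 2) (Fin 2) ℝ).map
        (fun x : ℝ => (x : ℂ))) = {1, 26} := by
      ext μ
      rw [spec2]
      have : (μ - (10 : ℝ)) * (μ - (17 : ℝ)) - ((-12 : ℝ) : ℂ) * ((-12 : ℝ) : ℂ) =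
        (μ - 1) * (μ - 26) := by push_cast; ring
      rw [this]; simp [sub_eq_zero]
    rw [rho, this, Set.image_pair]
    simp
  have h1 := (h 2 !![1/2, 1/2; 1, 0] !![10, -12; -12, 17] ![2/3, 1/3] (by norm_num)
    ⟨?_, ?_, 2, by norm_num, ?_⟩ ?_ ?_ ?_ ?_ ?_ ?_ (1/26) (by norm_num)
    (by rw [hB]; norm_num)).1
  · have e : (!![1/2, 1/2; 1, 0] : Matrix (Fin 2) (Fin 2) ℝ) * (1 - (1/26 : ℝ) • !![10, -12; -12, 17])
        = !![7/13, 21/52; 8/13, 6/13] := by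
      ext i j; fin_cases i <;> fin_cases j <;>
        simp [Matrix.mul_apply, Fin.sum_univ_two, Matrix.one_apply] <;> norm_num
    rw [e] at h1
    have : (1 : ℝ) ≤ rho !![7/13, 21/52; 8/13, 6/13] := by
      refine le_csSup ((Matrix.finite_spectrum _).image _).bddAbove ⟨1, ?_, by simp⟩
      rw [spec2]; push_cast; norm_num
    linarith
  · intro i j; fin_cases i <;> fin_cases j <;> simp
  · ext i; fin_cases i <;> simp [Matrix.mulVec, dotProduct, Fin.sum_univ_two]; norm_num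
  · intro i j; fin_cases i <;> fin_cases j <;> simp [pow_two, Matrix.mul_apply, Fin.sum_univ_two]
    norm_num
  · intro i; fin_cases i <;> simp
  · ext i; fin_cases i <;> simp [Matrix.vecMul, dotProduct, Fin.sum_univ_two] <;> norm_num
  · simp [dotProduct, Fin.sum_univ_two]; norm_num
  · refine Matrix.PosSemidef.of_dotProduct_mulVec_nonneg ?_ fun x => ?_
    · ext i j; fin_cases i <;> fin_cases j <;> simp [Matrix.conjTranspose_apply]
    · simp [Matrix.mulVec, dotProduct, Fin.sum_univ_two]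
      nlinarith [sq_nonneg (3 * x 0 - 4 * x 1), sq_nonneg (x 0), sq_nonneg (x 1)]
  · intro i; rw [hB]; fin_cases i <;> simp [Matrix.mulVec, dotProduct, Fin.sum_univ_two] <;>
      norm_num
  · simp [Matrix.mulVec, dotProduct, Fin.sum_univ_two]; norm_num

end Pool.Agent.Results.MP_d721eb_al.Unstable
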